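import Pool.Agent.Helper20.FS.St3

/-!
# Project SM, module MB (Mittag-Leffler in the completions)
-/

open Topology Filter

namespace Pool.Agent.Helper2.SM

open Pool.Agent.Helper20.FA Pool.Agent.Helper20.FR Pool.Agent.Helper20.FS

attribute [local instance] IsFrechet.tag IsFrechet.csm IsFrechet.lcs

section alg

variable {A : Type} [CommRing A] [Algebra ℂ A]

private def Cau (r : Seminorm ℂ A) (z : ℕ → A) : Prop :=
  ∀ ε : ℝ, 0 < ε → ∃ N, ∀ m ≥ N, ∀ n ≥ N, r (z m - z n) ≤ ε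

private def Lb (r q : Seminorm ℂ A) (D : ℝ) (z : ℕ → A) : Prop :=
  ∀ b, ∀ ε : ℝ, 0 < ε → ∃ N, ∀ k ≥ N, r (z k * b) ≤ D * q b + ε

private lemma bpow (r : Seminorm ℂ A) (hm : ∀ a b, r (a * b) ≤ r a * r b) (u : ℕ → A) (B : ℝ)
    (hB : ∀ k, r (u k) ≤ B) (n : ℕ) : ∃ C : ℝ, 0 ≤ C ∧ ∀ k, r (u k ^ n) ≤ C := by
  have hB0 : 0 ≤ B := (apply_nonneg r (u 0)).trans (hB 0)
  induction n with
  | zero => exact ⟨r 1, apply_nonneg _ _, fun k => by rw [pow_zero]⟩
  | succ n ih =>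
    obtain ⟨C, hC, h⟩ := ih
    refine ⟨C * B, mul_nonneg hC hB0, fun k => ?_⟩
    rw [pow_succ]
    exact (hm _ _).trans (mul_le_mul (h k) (hB k) (apply_nonneg _ _) hC)

private lemma lpow (r : Seminorm ℂ A) (hm : ∀ a b, r (a * b) ≤ r a * r b) (u : ℕ → A) (B : ℝ)
    (hB : ∀ k, r (u k) ≤ B) (n : ℕ) :
    ∃ L : ℝ, 0 ≤ L ∧ ∀ k l, r (u k ^ n - u l ^ n) ≤ L * r (u k - u l) := by
  have hB0 : 0 ≤ B := (apply_nonneg r (u 0)).trans (hB 0)
  induction n with
  | zero =>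
    refine ⟨0, le_rfl, fun k l => ?_⟩
    rw [pow_zero, pow_zero, sub_self, map_zero, zero_mul]
  | succ n ih =>
    obtain ⟨L, hL, h⟩ := ih
    obtain ⟨C, hC, hc⟩ := bpow r hm u B hB n
    refine ⟨B * L + C, by positivity, fun k l => ?_⟩
    have e : u k ^ (n + 1) - u l ^ (n + 1) = u k * (u k ^ n - u l ^ n) + (u l ^ n) * (u k - u l) := by
      ring
    rw [e]
    have h1 := map_add_le_add r (u k * (u k ^ n - u l ^ n)) ((u l ^ n) * (u k - u l))
    have h2 : r (u k * (u k ^ n - u l ^ n)) ≤ B * (L * r (u k - u l)) :=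
      (hm _ _).trans (mul_le_mul (hB k) (h k l) (apply_nonneg _ _) hB0)
    have h3 : r ((u l ^ n) * (u k - u l)) ≤ C * r (u k - u l) :=
      (hm _ _).trans (mul_le_mul_of_nonneg_right (hc l) (apply_nonneg _ _))
    linarith

private lemma bsum (r : Seminorm ℂ A) (hm : ∀ a b, r (a * b) ≤ r a * r b) (u : ℕ → A) (B : ℝ)
    (hB : ∀ k, r (u k) ≤ B) (n : ℕ) :
    ∃ C : ℝ, 0 ≤ C ∧ ∀ k, r (∑ i ∈ Finset.range n, u k ^ i) ≤ C := by
  induction n with
  | zero => exact ⟨0, le_rfl, fun k => by simp⟩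
  | succ n ih =>
    obtain ⟨C, hC, h⟩ := ih
    obtain ⟨C', hC', h'⟩ := bpow r hm u B hB n
    refine ⟨C + C', by positivity, fun k => ?_⟩
    rw [Finset.sum_range_succ]
    exact (map_add_le_add r _ _).trans (add_le_add (h k) (h' k))

private lemma fast (r : Seminorm ℂ A) (x : ℕ → A) (h : ∀ k, r (x (k + 1) - x k) ≤ (1 / 2) ^ k)
    (n i : ℕ) : r (x (n + i) - x n) ≤ (1 / 2) ^ n * (2 - 2 * (1 / 2) ^ i) := by
  induction i with
  | zero => simp
  | succ i ih =>
    have e1 : x (n + (i + 1)) - x n = (x (n + i + 1) - x (n + i)) + (x (n + i) - x n) := by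
      rw [← add_assoc]
      abel
    rw [e1]
    have h1 := map_add_le_add r (x (n + i + 1) - x (n + i)) (x (n + i) - x n)
    have h2 := h (n + i)
    rw [pow_add] at h2
    rw [pow_succ (1 / 2 : ℝ) i]
    linarith

private lemma fast_cau (r : Seminorm ℂ A) (x : ℕ → A)
    (h : ∀ k, r (x (k + 1) - x k) ≤ (1 / 2) ^ k) : Cau r x := by
  intro ε hε
  obtain ⟨N, hN⟩ := exists_pow_lt_of_lt_one (show (0 : ℝ) < ε / 4 by positivity)
    (by norm_num : (1 / 2 : ℝ) < 1)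
  have key : ∀ m ≥ N, r (x m - x N) ≤ ε / 2 := by
    intro m hm
    obtain ⟨i, rfl⟩ := Nat.exists_eq_add_of_le hm
    have h1 := fast r x h N i
    have h2 : (0 : ℝ) < (1 / 2) ^ N * (1 / 2) ^ i := by positivity
    nlinarith
  refine ⟨N, fun m hm n hn => ?_⟩
  have e : x m - x n = (x m - x N) - (x n - x N) := by abel
  rw [e]
  have := map_sub_le_add r (x m - x N) (x n - x N)
  linarith [key m hm, key n hn]

/-- (i) -/
private lemma improve [TopologicalSpace A] (p q r : Seminorm ℂ A) (hp : Good p) (hr : Good r)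
    (h : ∃ (x : ℕ → A) (C : ℝ), QB q r C x ∧ ∀ k, p (1 - x k) < 1 / 2) (ε : ℝ) (hε : 0 < ε) :
    ∃ (y : ℕ → A) (C : ℝ), 0 ≤ C ∧ Cau r y ∧ Lb r q C y ∧ ∀ k, p (1 - y k) ≤ ε := by
  obtain ⟨x, C, ⟨hx1, hx2⟩, hx⟩ := h
  obtain ⟨n, hn⟩ := exists_pow_lt_of_lt_one hε (by norm_num : (1 / 2 : ℝ) < 1)
  have hc := fast_cau r x hx1
  have hB : ∀ k, r (1 - x k) ≤ r (1 - x 0) + 2 := by
    intro k
    have e : 1 - x k = (1 - x 0) - (x k - x 0) := by abel
    have h1 := map_sub_le_add r (1 - x 0) (x k - x 0)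
    have h2 := fast r x hx1 0 k
    rw [zero_add] at h2
    have h3 : (0 : ℝ) < (1 / 2) ^ k := by positivity
    rw [e]
    simp only [pow_zero, one_mul] at h2
    linarith
  obtain ⟨L, hL, hLl⟩ := lpow r hr.2 (fun k => 1 - x k) _ hB (n + 1)
  obtain ⟨M, hM, hMm⟩ := bsum r hr.2 (fun k => 1 - x k) _ hB (n + 1)
  refine ⟨fun k => 1 - (1 - x k) ^ (n + 1), M * max C 0, by positivity, ?_, ?_, ?_⟩
  · intro δ hδ
    obtain ⟨N, hN⟩ := hc (δ / (L + 1)) (by positivity)
    refine ⟨N, fun k hk l hl => ?_⟩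
    have e : (1 - (1 - x k) ^ (n + 1)) - (1 - (1 - x l) ^ (n + 1)) =
        (1 - x l) ^ (n + 1) - (1 - x k) ^ (n + 1) := by abel
    show r ((1 - (1 - x k) ^ (n + 1)) - (1 - (1 - x l) ^ (n + 1))) ≤ δ
    rw [e]
    have h1 := hLl l k
    have h2 : r ((1 - x l) - (1 - x k)) ≤ δ / (L + 1) := by
      have e2 : (1 - x l) - (1 - x k) = x k - x l := by abel
      rw [e2]
      exact hN k hk l hl
    have h3 : L * r ((1 - x l) - (1 - x k)) ≤ L * (δ / (L + 1)) := mul_le_mul_of_nonneg_left h2 hL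
    have h4 : L * (δ / (L + 1)) ≤ δ := by
      rw [← mul_div_assoc, div_le_iff₀ (by positivity)]
      nlinarith
    linarith
  · intro b δ hδ
    have hrb := apply_nonneg r b
    have hqb := apply_nonneg q b
    obtain ⟨N, hN⟩ := exists_pow_lt_of_lt_one
      (show (0 : ℝ) < δ / (M * r b + 1) by positivity) (by norm_num : (1 / 2 : ℝ) < 1)
    refine ⟨N, fun k hk => ?_⟩
    have h1 : 1 - (1 - x k) ^ (n + 1) = (∑ i ∈ Finset.range (n + 1), (1 - x k) ^ i) * x k := by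
      have h2 := geom_sum_mul_neg (1 - x k) (n + 1)
      rw [sub_sub_cancel] at h2
      exact h2.symm
    show r ((1 - (1 - x k) ^ (n + 1)) * b) ≤ M * max C 0 * q b + δ
    rw [h1, mul_assoc]
    have h2 := hr.2 (∑ i ∈ Finset.range (n + 1), (1 - x k) ^ i) (x k * b)
    have h3 := hx2 k b
    have h4 : (1 / 2 : ℝ) ^ k ≤ (1 / 2) ^ N := pow_le_pow_of_le_one (by norm_num) (by norm_num) hk
    have h5 : C * q b ≤ max C 0 * q b := mul_le_mul_of_nonneg_right (le_max_left _ _) hqb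
    have h6 : r (∑ i ∈ Finset.range (n + 1), (1 - x k) ^ i) * r (x k * b) ≤
        M * (max C 0 * q b + (1 / 2) ^ N * r b) := by
      refine mul_le_mul (hMm k) ?_ (apply_nonneg _ _) hM
      have := mul_le_mul_of_nonneg_right h4 hrb
      linarith
    have h7 : (1 / 2 : ℝ) ^ N * (M * r b + 1) < δ := by
      rwa [lt_div_iff₀ (by positivity)] at hN
    have h8 : (0 : ℝ) < (1 / 2) ^ N := by positivity
    nlinarith
  · intro k
    show p (1 - (1 - (1 - x k) ^ (n + 1))) ≤ ε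
    rw [sub_sub_cancel]
    have hpp : ∀ m : ℕ, p ((1 - x k) ^ (m + 1)) ≤ p (1 - x k) ^ (m + 1) := by
      intro m
      induction m with
      | zero => simp
      | succ m ih =>
        rw [pow_succ, pow_succ (p (1 - x k))]
        exact (hp.2 _ _).trans (mul_le_mul_of_nonneg_right ih (apply_nonneg p _))
    have h1 : p (1 - x k) ^ (n + 1) ≤ (1 / 2 : ℝ) ^ (n + 1) :=
      pow_le_pow_left₀ (apply_nonneg _ _) (hx k).le _
    have h2 : (1 / 2 : ℝ) ^ (n + 1) ≤ (1 / 2 : ℝ) ^ n :=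
      pow_le_pow_of_le_one (by norm_num) (by norm_num) (Nat.le_succ n)
    linarith [hpp n]

/-- The product in the completion. -/
private lemma prodc (q0 q1 r1 r2 : Seminorm ℂ A) (h2 : ∀ a b, r2 (a * b) ≤ r2 a * r2 b)
    (hq : ∀ a, q1 a ≤ r1 a) (z y : ℕ → A) (C D : ℝ) (hC : 0 ≤ C)
    (hz : Cau r1 z) (hzb : Lb r1 q0 D z) (hy : Cau r2 y) (hyb : Lb r2 q1 C y) :
    ∃ m : ℕ → ℕ, Cau r2 (fun i => y (m i) * z i) ∧ Lb r2 q0 (C * D) (fun i => y (m i) * z i) := by
  have h0 : ∀ i : ℕ, ∃ m, ∀ k ≥ m, ∀ l ≥ m, r2 (y k - y l) * r2 (z i) ≤ (1 / 2) ^ i := by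
    intro i
    have hz0 := apply_nonneg r2 (z i)
    obtain ⟨N, hN⟩ := hy ((1 / 2) ^ i / (1 + r2 (z i))) (by positivity)
    refine ⟨N, fun k hk l hl => ?_⟩
    have h1 := hN k hk l hl
    rw [le_div_iff₀ (by positivity)] at h1
    have h2 := apply_nonneg r2 (y k - y l)
    nlinarith
  choose m hm using h0
  have key : ∀ i b, r2 (y (m i) * z i * b) ≤ C * q1 (z i * b) + (1 / 2) ^ i * r2 b := by
    intro i b
    refine le_of_forall_pos_le_add fun ε hε => ?_
    obtain ⟨N, hN⟩ := hyb (z i * b) ε hε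
    have h1 := hN (max N (m i)) (le_max_left _ _)
    have h3 := hm i (m i) le_rfl (max N (m i)) (le_max_right _ _)
    have e : y (m i) * z i * b = (y (m i) - y (max N (m i))) * z i * b +
        y (max N (m i)) * (z i * b) := by ring
    rw [e]
    have h4 := map_add_le_add r2 ((y (m i) - y (max N (m i))) * z i * b)
      (y (max N (m i)) * (z i * b))
    have h5 : r2 ((y (m i) - y (max N (m i))) * z i * b) ≤ (1 / 2) ^ i * r2 b := by
      refine (h2 _ _).trans (mul_le_mul_of_nonneg_right ?_ (apply_nonneg _ _))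
      exact (h2 _ _).trans h3
    linarith
  have key2 : ∀ i j, r2 (y (m i) * z i - y (m j) * z j) ≤
      (1 / 2) ^ i + (1 / 2) ^ j + C * q1 (z i - z j) := by
    intro i j
    refine le_of_forall_pos_le_add fun ε hε => ?_
    obtain ⟨N, hN⟩ := hyb (z i - z j) ε hε
    obtain ⟨K, hK1, hK2, hK3⟩ : ∃ K, N ≤ K ∧ m i ≤ K ∧ m j ≤ K :=
      ⟨max N (max (m i) (m j)), le_max_left _ _, (le_max_left _ _).trans (le_max_right _ _),
        (le_max_right _ _).trans (le_max_right _ _)⟩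
    have h1 := hN K hK1
    have h3 := hm i (m i) le_rfl K hK2
    have h4 := hm j (m j) le_rfl K hK3
    have e : y (m i) * z i - y (m j) * z j = ((y (m i) - y K) * z i - (y (m j) - y K) * z j) +
        y K * (z i - z j) := by ring
    rw [e]
    have h5 := map_add_le_add r2 ((y (m i) - y K) * z i - (y (m j) - y K) * z j)
      (y K * (z i - z j))
    have h6 := map_sub_le_add r2 ((y (m i) - y K) * z i) ((y (m j) - y K) * z j)
    have h7 := h2 (y (m i) - y K) (z i)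
    have h8 := h2 (y (m j) - y K) (z j)
    linarith
  refine ⟨m, ?_, ?_⟩
  · intro ε hε
    obtain ⟨N, hN⟩ := hz (ε / (3 * (C + 1))) (by positivity)
    obtain ⟨N', hN'⟩ := exists_pow_lt_of_lt_one (show (0 : ℝ) < ε / 3 by positivity)
      (by norm_num : (1 / 2 : ℝ) < 1)
    refine ⟨max N N', fun i hi j hj => ?_⟩
    have h1 := key2 i j
    have h3 := hN i ((le_max_left _ _).trans hi) j ((le_max_left _ _).trans hj)
    have h4 : (1 / 2 : ℝ) ^ i ≤ (1 / 2) ^ N' :=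
      pow_le_pow_of_le_one (by norm_num) (by norm_num) ((le_max_right _ _).trans hi)
    have h5 : (1 / 2 : ℝ) ^ j ≤ (1 / 2) ^ N' :=
      pow_le_pow_of_le_one (by norm_num) (by norm_num) ((le_max_right _ _).trans hj)
    have h6 : C * q1 (z i - z j) ≤ C * (ε / (3 * (C + 1))) :=
      mul_le_mul_of_nonneg_left ((hq _).trans h3) hC
    have h7 : C * (ε / (3 * (C + 1))) ≤ ε / 3 := by
      rw [← mul_div_assoc, div_le_iff₀ (by positivity)]
      nlinarith
    show r2 (y (m i) * z i - y (m j) * z j) ≤ ε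
    linarith
  · intro b ε hε
    have hrb := apply_nonneg r2 b
    obtain ⟨N, hN⟩ := hzb b (ε / (2 * (C + 1))) (by positivity)
    obtain ⟨N', hN'⟩ := exists_pow_lt_of_lt_one
      (show (0 : ℝ) < ε / (2 * (r2 b + 1)) by positivity) (by norm_num : (1 / 2 : ℝ) < 1)
    refine ⟨max N N', fun i hi => ?_⟩
    have h1 := key i b
    have h3 := hN i ((le_max_left _ _).trans hi)
    have h4 : (1 / 2 : ℝ) ^ i ≤ (1 / 2) ^ N' :=
      pow_le_pow_of_le_one (by norm_num) (by norm_num) ((le_max_right _ _).trans hi)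
    have h5 : (1 / 2 : ℝ) ^ i * r2 b ≤ ε / 2 := by
      have h6 : (1 / 2 : ℝ) ^ i * r2 b ≤ ε / (2 * (r2 b + 1)) * r2 b :=
        mul_le_mul_of_nonneg_right (h4.trans hN'.le) hrb
      have h7 : ε / (2 * (r2 b + 1)) * r2 b ≤ ε / 2 := by
        rw [div_mul_eq_mul_div, div_le_iff₀ (by positivity)]
        nlinarith
      linarith
    have h6 : C * q1 (z i * b) ≤ C * (D * q0 b + ε / (2 * (C + 1))) :=
      mul_le_mul_of_nonneg_left ((hq _).trans h3) hC
    have h7 : C * (ε / (2 * (C + 1))) ≤ ε / 2 := by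
      rw [← mul_div_assoc, div_le_iff₀ (by positivity)]
      nlinarith
    show r2 (y (m i) * z i * b) ≤ C * D * q0 b + ε
    nlinarith

end alg

/-- From a bound on the unit balls to a bound of seminorms. -/
private lemma le_of_ball {E : Type} [AddCommGroup E] [Module ℂ E] (s v : Seminorm ℂ E)
    (h : ∀ x, v x < 1 → s x < 1) (x : E) : s x ≤ v x := by
  refine le_of_forall_pos_le_add fun ε hε => ?_
  have hv := apply_nonneg v x
  have ht : 0 < v x + ε := by linarith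
  have h4 : v ((((v x + ε)⁻¹ : ℝ) : ℂ) • x) < 1 := by
    rw [map_smul_eq_mul, Complex.norm_real, Real.norm_of_nonneg (by positivity),
      inv_mul_lt_iff₀ ht]
    linarith
  have h5 := h _ h4
  rw [map_smul_eq_mul, Complex.norm_real, Real.norm_of_nonneg (by positivity),
      inv_mul_lt_iff₀ ht, mul_one] at h5
  exact h5.le

/-- A countable family of seminorms. -/
private lemma exists_fam (A : Type) [AddCommGroup A] [Module ℂ A] [TopologicalSpace A]
    [IsFrechet A] : ∃ v : ℕ → Seminorm ℂ A, (∀ n, Continuous (v n)) ∧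
      (∀ U ∈ 𝓝 (0 : A), ∃ n, ∀ x, v n x < 1 → x ∈ U) ∧
      ∀ s : Seminorm ℂ A, Continuous s → ∃ n, ∀ x, s x ≤ v n x := by
  have : TopologicalSpace.MetrizableSpace A := IsFrechet.metr
  obtain ⟨V, hV⟩ := (𝓝 (0 : A)).exists_antitone_basis
  have h1 : ∀ n, ∃ v : Seminorm ℂ A, Continuous v ∧ ∀ x, v x < 1 → x ∈ V n := fun n =>
    exists_seminorm (hV.1.mem_of_mem trivial)
  choose v hv hvV using h1
  have h2 : ∀ U ∈ 𝓝 (0 : A), ∃ n, ∀ x, v n x < 1 → x ∈ U := by
    intro U hU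
    obtain ⟨n, -, hn⟩ := hV.1.mem_iff.1 hU
    exact ⟨n, fun x hx => hn (hvV n x hx)⟩
  refine ⟨v, hv, h2, fun s hs => ?_⟩
  have h3 : {x : A | s x < 1} ∈ 𝓝 (0 : A) := by
    refine (isOpen_lt hs continuous_const).mem_nhds ?_
    simp
  obtain ⟨n, hn⟩ := h2 _ h3
  exact ⟨n, le_of_ball s (v n) hn⟩

private lemma exists_lim (A : Type) [AddCommGroup A] [Module ℂ A] [TopologicalSpace A]
    [IsFrechet A] (Z : ℕ → A)
    (h : ∀ U ∈ 𝓝 (0 : A), ∃ N, ∀ n ≥ N, Z n - Z N ∈ U) : ∃ a, Tendsto Z atTop (𝓝 a) := by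
  let _ : UniformSpace A := IsTopologicalAddGroup.rightUniformSpace A
  have : CompleteSpace A := IsFrechet.complete
  have : IsUniformAddGroup A := isUniformAddGroup_of_addCommGroup
  refine cauchySeq_tendsto_of_complete ?_
  rw [cauchySeq_iff_tendsto, uniformity_eq_comap_nhds_zero, tendsto_comap_iff]
  intro U hU
  have h1 : Tendsto (fun p : A × A => p.1 - p.2) (𝓝 0 ×ˢ 𝓝 0) (𝓝 0) := by
    rw [← nhds_prod_eq]
    have : ContinuousAt (fun p : A × A => p.1 - p.2) (0, 0) := by fun_prop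
    simpa [ContinuousAt] using this
  have h2 := h1 hU
  rw [Filter.mem_map, Filter.mem_prod_self_iff] at h2
  obtain ⟨V, hV, hVU⟩ := h2
  obtain ⟨N, hN⟩ := h V hV
  rw [Filter.mem_map, ← prod_atTop_atTop_eq, Filter.mem_prod_self_iff]
  refine ⟨Set.Ici N, Ici_mem_atTop N, ?_⟩
  rintro ⟨m, n⟩ ⟨hm, hn⟩
  have h3 := hVU (Set.mk_mem_prod (hN n hn) (hN m hm))
  simpa using h3

theorem hMB : StMB := by
  intro A _ _ _ _ _ H1 H2 p hp
  obtain ⟨v, hvc, hvU, hvs⟩ := exists_fam A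
  have H2' : ∀ p : Seminorm ℂ A, Good p → ∃ q : Seminorm ℂ A, Continuous q ∧
      ∀ r : Seminorm ℂ A, Good r → ∀ ε : ℝ, 0 < ε → ∃ (y : ℕ → A) (C : ℝ), 0 ≤ C ∧ Cau r y ∧
        Lb r q C y ∧ ∀ k, p (1 - y k) ≤ ε := by
    intro p hp
    obtain ⟨q, hq, hqr⟩ := H2 p hp
    exact ⟨q, hq, fun r hr ε hε => improve p q r hp hr (hqr r hr) ε hε⟩
  choose! up hup using H1
  choose! Q hQ using H2'
  -- the seminorms
  let P : ℕ → Seminorm ℂ A := fun n => Nat.rec p (fun k s => up (s + v k)) n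
  have hP0 : P 0 = p := rfl
  have hPs : ∀ k, P (k + 1) = up (P k + v k) := fun k => rfl
  have hPg : ∀ k, Good (P k) := by
    intro k
    induction k with
    | zero => exact hp
    | succ k ih =>
      rw [hPs]
      exact (hup _ (ih.1.add (hvc k))).1
  have hPle : ∀ k x, P k x + v k x ≤ P (k + 1) x := by
    intro k x
    rw [hPs]
    exact (hup (P k + v k) ((hPg k).1.add (hvc k))).2 x
  have hPle1 : ∀ k x, P k x ≤ P (k + 1) x := fun k x => by
    have := hPle k x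
    have h3 := apply_nonneg (v k) x
    linarith
  have hPle2 : ∀ k x, v k x ≤ P (k + 1) x := fun k x => by
    have := hPle k x
    have h3 := apply_nonneg (P k) x
    linarith
  have hPmono : ∀ k l, k ≤ l → ∀ x, P k x ≤ P l x := by
    intro k l hkl x
    induction hkl with
    | refl => exact le_rfl
    | step _ ih => exact ih.trans (hPle1 _ x)
  have hQc : ∀ k, Continuous (Q (P k)) := fun k => (hQ _ (hPg k)).1
  let R : ℕ → Seminorm ℂ A := fun k => up (Q (P k) + P k)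
  have hRg : ∀ k, Good (R k) := fun k => (hup _ ((hQc k).add (hPg k).1)).1
  have hRle : ∀ k x, Q (P k) x + P k x ≤ R k x := fun k x =>
    (hup (Q (P k) + P k) ((hQc k).add (hPg k).1)).2 x
  have hRQ : ∀ k x, Q (P k) x ≤ R k x := fun k x => by
    have := hRle k x
    have h3 := apply_nonneg (P k) x
    linarith
  have hRP : ∀ k x, P k x ≤ R k x := fun k x => by
    have := hRle k x
    have h3 := apply_nonneg (Q (P k)) x
    linarith
  -- the recursion
  have step : ∀ (n : ℕ) (s : (ℕ → A) × ℝ),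
      (0 ≤ s.2 ∧ Cau (R (n + 1)) s.1 ∧ Lb (R (n + 1)) (Q p) s.2 s.1) →
      ∃ t : (ℕ → A) × ℝ, (0 ≤ t.2 ∧ Cau (R (n + 2)) t.1 ∧ Lb (R (n + 2)) (Q p) t.2 t.1) ∧
        (∀ b, ∀ ε : ℝ, 0 < ε → ∃ N, ∀ i ≥ N,
          P (n + 1) ((t.1 i - s.1 i) * b) ≤ (1 / 2) ^ (n + 4) * Q p b + ε) ∧
        ∃ N, ∀ i ≥ N, P (n + 1) (t.1 i - s.1 i) ≤ (1 / 2) ^ (n + 4) := by
    rintro n ⟨z, D⟩ ⟨hD, hz, hzb⟩
    dsimp only at hD hz hzb ⊢
    obtain ⟨N0, hN0⟩ := hz 1 one_pos
    have hzN := apply_nonneg (R (n + 1)) (z N0)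
    have hzP : ∀ i ≥ N0, P (n + 1) (z i) ≤ R (n + 1) (z N0) + 1 := by
      intro i hi
      refine (hRP (n + 1) _).trans ?_
      have e : z i = z N0 + (z i - z N0) := by abel
      have h1 := map_add_le_add (R (n + 1)) (z N0) (z i - z N0)
      have h2 := hN0 i hi N0 le_rfl
      rw [← e] at h1
      linarith
    have hden : 0 < 2 + D + R (n + 1) (z N0) := by linarith
    obtain ⟨y, C, hC, hy, hyb, hy1⟩ := (hQ _ (hPg (n + 1))).2 (R (n + 2)) (hRg (n + 2))
      ((1 / 2) ^ (n + 4) / (2 + D + R (n + 1) (z N0))) (by positivity)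
    obtain ⟨m, hm1, hm2⟩ := prodc (Q p) (Q (P (n + 1))) (R (n + 1)) (R (n + 2)) (hRg (n + 2)).2
      (hRQ (n + 1)) z y C D hC hz hzb hy hyb
    have e1 : ∀ k, P (n + 1) (y k - 1) ≤ (1 / 2) ^ (n + 4) / (2 + D + R (n + 1) (z N0)) := by
      intro k
      rw [map_sub_rev]
      exact hy1 k
    have hδ1 : (1 / 2 : ℝ) ^ (n + 4) / (2 + D + R (n + 1) (z N0)) * (R (n + 1) (z N0) + 1) ≤
        (1 / 2) ^ (n + 4) := by
      have h0 : (0 : ℝ) < (1 / 2) ^ (n + 4) := by positivity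
      rw [div_mul_eq_mul_div, div_le_iff₀ hden]
      nlinarith
    have hδ2 : (1 / 2 : ℝ) ^ (n + 4) / (2 + D + R (n + 1) (z N0)) * D ≤ (1 / 2) ^ (n + 4) := by
      have h0 : (0 : ℝ) < (1 / 2) ^ (n + 4) := by positivity
      rw [div_mul_eq_mul_div, div_le_iff₀ hden]
      nlinarith
    have hδ3 : (1 / 2 : ℝ) ^ (n + 4) / (2 + D + R (n + 1) (z N0)) ≤ 1 := by
      have h0 : (1 / 2 : ℝ) ^ (n + 4) ≤ 1 := pow_le_one₀ (by norm_num) (by norm_num)
      rw [div_le_iff₀ hden]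
      linarith
    have hδ0 : (0 : ℝ) ≤ (1 / 2) ^ (n + 4) / (2 + D + R (n + 1) (z N0)) := by positivity
    refine ⟨(fun i => y (m i) * z i, C * D), ⟨mul_nonneg hC hD, hm1, hm2⟩, fun b ε hε => ?_,
      N0, fun i hi => ?_⟩
    · obtain ⟨N, hN⟩ := hzb b ε hε
      refine ⟨N, fun i hi => ?_⟩
      have e2 : (y (m i) * z i - z i) * b = (y (m i) - 1) * (z i * b) := by ring
      have hb := apply_nonneg (Q p) b
      show P (n + 1) ((y (m i) * z i - z i) * b) ≤ (1 / 2) ^ (n + 4) * Q p b + ε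
      rw [e2]
      calc P (n + 1) ((y (m i) - 1) * (z i * b)) ≤
            P (n + 1) (y (m i) - 1) * P (n + 1) (z i * b) := (hPg (n + 1)).2 _ _
        _ ≤ (1 / 2) ^ (n + 4) / (2 + D + R (n + 1) (z N0)) * (D * Q p b + ε) :=
            mul_le_mul (e1 _) ((hRP (n + 1) (z i * b)).trans (hN i hi)) (apply_nonneg _ _) hδ0
        _ = ((1 / 2) ^ (n + 4) / (2 + D + R (n + 1) (z N0)) * D) * Q p b +
              (1 / 2) ^ (n + 4) / (2 + D + R (n + 1) (z N0)) * ε := by ring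
        _ ≤ (1 / 2) ^ (n + 4) * Q p b + 1 * ε :=
            add_le_add (mul_le_mul_of_nonneg_right hδ2 hb) (mul_le_mul_of_nonneg_right hδ3 hε.le)
        _ = (1 / 2) ^ (n + 4) * Q p b + ε := by rw [one_mul]
    · have e2 : y (m i) * z i - z i = (y (m i) - 1) * z i := by ring
      show P (n + 1) (y (m i) * z i - z i) ≤ (1 / 2) ^ (n + 4)
      rw [e2]
      exact ((hPg (n + 1)).2 _ _).trans ((mul_le_mul (e1 _) (hzP i hi) (apply_nonneg _ _) hδ0).trans
        hδ1)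
  obtain ⟨z0, D0, hD0, hz0c, hz0b, hz0p⟩ := (hQ _ hp).2 (R 1) (hRg 1) (1 / 16) (by norm_num)
  choose! nx hnx using step
  let S : ℕ → (ℕ → A) × ℝ := fun n => Nat.rec (z0, D0) (fun k s => nx k s) n
  have hS0 : S 0 = (z0, D0) := rfl
  have hSs : ∀ n, S (n + 1) = nx n (S n) := fun n => rfl
  have hSP : ∀ n, 0 ≤ (S n).2 ∧ Cau (R (n + 1)) (S n).1 ∧ Lb (R (n + 1)) (Q p) (S n).2 (S n).1 := by
    intro n
    induction n with
    | zero => exact ⟨hD0, hz0c, hz0b⟩
    | succ n ih =>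
      rw [hSs]
      exact (hnx n (S n) ih).1
  have hSd : ∀ n b, ∀ ε : ℝ, 0 < ε → ∃ N, ∀ i ≥ N,
      P (n + 1) (((S (n + 1)).1 i - (S n).1 i) * b) ≤ (1 / 2) ^ (n + 4) * Q p b + ε := by
    intro n
    rw [hSs]
    exact (hnx n (S n) (hSP n)).2.1
  have hSe : ∀ n, ∃ N, ∀ i ≥ N, P (n + 1) ((S (n + 1)).1 i - (S n).1 i) ≤ (1 / 2) ^ (n + 4) := by
    intro n
    rw [hSs]
    exact (hnx n (S n) (hSP n)).2.2
  -- the diagonal
  have hk : ∀ n, ∃ k, ∀ i ≥ k, ∀ j ≥ k, R (n + 1) ((S n).1 i - (S n).1 j) ≤ (1 / 2) ^ (n + 4) :=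
    fun n => (hSP n).2.1 _ (by positivity)
  choose κ hκ using hk
  let Z : ℕ → A := fun n => (S n).1 (κ n)
  have hZe : ∀ n, P (n + 1) (Z (n + 1) - Z n) ≤ 3 * (1 / 2) ^ (n + 4) := by
    intro n
    obtain ⟨N, hN⟩ := hSe n
    obtain ⟨K, hK1, hK2, hK3⟩ : ∃ K, N ≤ K ∧ κ n ≤ K ∧ κ (n + 1) ≤ K :=
      ⟨max N (max (κ n) (κ (n + 1))), le_max_left _ _, (le_max_left _ _).trans (le_max_right _ _),
        (le_max_right _ _).trans (le_max_right _ _)⟩
    have e : Z (n + 1) - Z n = ((S (n + 1)).1 (κ (n + 1)) - (S (n + 1)).1 K) +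
        (((S (n + 1)).1 K - (S n).1 K) + ((S n).1 K - (S n).1 (κ n))) := by
      show (S (n + 1)).1 (κ (n + 1)) - (S n).1 (κ n) = _
      abel
    rw [e]
    have h1 := map_add_le_add (P (n + 1)) ((S (n + 1)).1 (κ (n + 1)) - (S (n + 1)).1 K)
      (((S (n + 1)).1 K - (S n).1 K) + ((S n).1 K - (S n).1 (κ n)))
    have h2 := map_add_le_add (P (n + 1)) ((S (n + 1)).1 K - (S n).1 K)
      ((S n).1 K - (S n).1 (κ n))
    have h3 := (hRP (n + 2) _).trans (hκ (n + 1) (κ (n + 1)) le_rfl K hK3)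
    have h4 := (hPle1 (n + 1) ((S (n + 1)).1 (κ (n + 1)) - (S (n + 1)).1 K)).trans h3
    have h5 := hN K hK1
    have h6 := (hRP (n + 1) _).trans (hκ n K hK2 (κ n) le_rfl)
    have h7 : (1 / 2 : ℝ) ^ (n + 1 + 4) ≤ (1 / 2) ^ (n + 4) :=
      pow_le_pow_of_le_one (by norm_num) (by norm_num) (by omega)
    linarith
  have hcau : ∀ m n, m ≤ n → ∀ i, P (m + 1) (Z (n + i) - Z n) ≤
      (1 / 2) ^ n * (1 - (1 / 2) ^ i) := by
    intro m n hmn i
    induction i with
    | zero => simp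
    | succ i ih =>
      have e1 : Z (n + (i + 1)) - Z n = (Z (n + i + 1) - Z (n + i)) + (Z (n + i) - Z n) := by
        rw [← add_assoc]
        abel
      rw [e1]
      have h1 := map_add_le_add (P (m + 1)) (Z (n + i + 1) - Z (n + i)) (Z (n + i) - Z n)
      have h2 := (hPmono (m + 1) (n + i + 1) (by omega) (Z (n + i + 1) - Z (n + i))).trans
        (hZe (n + i))
      have h3 : (1 / 2 : ℝ) ^ (n + i + 4) = (1 / 2) ^ n * (1 / 2) ^ i * (1 / 16) := by
        rw [pow_add, pow_add]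
        norm_num
      have h4 : (0 : ℝ) < (1 / 2) ^ n * (1 / 2) ^ i := by positivity
      rw [h3] at h2
      rw [pow_succ (1 / 2 : ℝ) i]
      linarith
  obtain ⟨a, ha⟩ := exists_lim A Z (by
    intro U hU
    obtain ⟨m, hm⟩ := hvU U hU
    refine ⟨m + 1, fun n hn => hm _ ?_⟩
    obtain ⟨i, rfl⟩ := Nat.exists_eq_add_of_le hn
    have h1 := (hPle2 m _).trans (hcau m (m + 1) (by omega) i)
    have h2 : (1 / 2 : ℝ) ^ (m + 1) ≤ 1 / 2 := by
      rw [pow_succ]
      have : (1 / 2 : ℝ) ^ m ≤ 1 := pow_le_one₀ (by norm_num) (by norm_num)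
      linarith
    have h3 : (0 : ℝ) < (1 / 2) ^ i := by positivity
    have h4 : (0 : ℝ) < (1 / 2) ^ (m + 1) := by positivity
    refine lt_of_le_of_lt h1 ?_
    nlinarith)
  have hbd : ∀ j i b, ∀ ε : ℝ, 0 < ε → ∃ N, ∀ K ≥ N, P (j + 1) ((S (j + i)).1 K * b) ≤
      ((S j).2 + 1 - (1 / 2) ^ i) * Q p b + ε := by
    intro j i b
    induction i with
    | zero =>
      intro ε hε
      obtain ⟨N, hN⟩ := (hSP j).2.2 b ε hε
      refine ⟨N, fun K hK => ?_⟩
      have h1 := (hRP (j + 1) _).trans (hN K hK)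
      simpa using h1
    | succ i ih =>
      intro ε hε
      obtain ⟨N1, hN1⟩ := ih (ε / 2) (by positivity)
      obtain ⟨N2, hN2⟩ := hSd (j + i) b (ε / 2) (by positivity)
      refine ⟨max N1 N2, fun K hK => ?_⟩
      have e1 : (S (j + (i + 1))).1 K * b =
          ((S (j + i + 1)).1 K - (S (j + i)).1 K) * b + (S (j + i)).1 K * b := by
        rw [← add_assoc]
        ring
      rw [e1]
      have h1 := map_add_le_add (P (j + 1)) (((S (j + i + 1)).1 K - (S (j + i)).1 K) * b)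
        ((S (j + i)).1 K * b)
      have h2 := (hPmono (j + 1) (j + i + 1) (by omega)
        (((S (j + i + 1)).1 K - (S (j + i)).1 K) * b)).trans
          (hN2 K ((le_max_right _ _).trans hK))
      have h0 := hN1 K ((le_max_left _ _).trans hK)
      have hb := apply_nonneg (Q p) b
      have h3 : (1 / 2 : ℝ) ^ (j + i + 4) ≤ (1 / 2) ^ i * (1 / 2) := by
        have h5 : (1 / 2 : ℝ) ^ (j + i + 4) = (1 / 2) ^ j * ((1 / 2) ^ i * (1 / 16)) := by
          rw [pow_add, pow_add]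
          norm_num
          ring
        have h6 : (1 / 2 : ℝ) ^ j ≤ 1 := pow_le_one₀ (by norm_num) (by norm_num)
        have h7 : (0 : ℝ) < (1 / 2) ^ i := by positivity
        rw [h5]
        nlinarith
      have h4 := mul_le_mul_of_nonneg_right h3 hb
      rw [pow_succ (1 / 2 : ℝ) i]
      linarith
  have hZb : ∀ j i b, P (j + 1) (Z (j + i) * b) ≤
      ((S j).2 + 1) * Q p b + (1 / 2) ^ (j + i + 4) * P (j + 1) b := by
    intro j i b
    refine le_of_forall_pos_le_add fun ε hε => ?_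
    obtain ⟨N, hN⟩ := hbd j i b ε hε
    have h1 := hN (max N (κ (j + i))) (le_max_left _ _)
    have h2 := hκ (j + i) (κ (j + i)) le_rfl (max N (κ (j + i))) (le_max_right _ _)
    have e : Z (j + i) * b = ((S (j + i)).1 (κ (j + i)) - (S (j + i)).1 (max N (κ (j + i)))) * b +
        (S (j + i)).1 (max N (κ (j + i))) * b := by
      show (S (j + i)).1 (κ (j + i)) * b = _
      ring
    rw [e]
    have h3 := map_add_le_add (P (j + 1))
      (((S (j + i)).1 (κ (j + i)) - (S (j + i)).1 (max N (κ (j + i)))) * b)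
      ((S (j + i)).1 (max N (κ (j + i))) * b)
    have h4 : P (j + 1) (((S (j + i)).1 (κ (j + i)) - (S (j + i)).1 (max N (κ (j + i)))) * b) ≤
        (1 / 2) ^ (j + i + 4) * P (j + 1) b := by
      refine ((hPg (j + 1)).2 _ _).trans ?_
      refine mul_le_mul_of_nonneg_right ?_ (apply_nonneg _ _)
      exact (hPmono (j + 1) (j + i + 1) (by omega) _).trans ((hRP (j + i + 1) _).trans h2)
    have hb := apply_nonneg (Q p) b
    have h5 : (0 : ℝ) < (1 / 2) ^ i := by positivity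
    have h6 : ((S j).2 + 1 - (1 / 2) ^ i) * Q p b ≤ ((S j).2 + 1) * Q p b :=
      mul_le_mul_of_nonneg_right (by linarith) hb
    linarith
  have hlimb : ∀ j b, P (j + 1) (a * b) ≤ ((S j).2 + 1) * Q p b := by
    intro j b
    have h1 : Tendsto (fun i => P (j + 1) (Z (j + i) * b)) atTop (𝓝 (P (j + 1) (a * b))) := by
      have h0 : Tendsto (fun i => Z (j + i)) atTop (𝓝 a) :=
        ha.comp (tendsto_atTop_mono (fun i => Nat.le_add_left i j) tendsto_id)
      exact ((hPg (j + 1)).1.tendsto _).comp (h0.mul_const b)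
    have h2 : Tendsto (fun i : ℕ => ((S j).2 + 1) * Q p b + (1 / 2 : ℝ) ^ (j + i + 4) * P (j + 1) b)
        atTop (𝓝 (((S j).2 + 1) * Q p b + 0 * P (j + 1) b)) := by
      refine Tendsto.const_add _ (Tendsto.mul_const _ ?_)
      have h3 : Tendsto (fun n : ℕ => (1 / 2 : ℝ) ^ n) atTop (𝓝 0) :=
        tendsto_pow_atTop_nhds_zero_of_lt_one (by norm_num) (by norm_num)
      exact h3.comp (tendsto_atTop_mono (fun i => by omega : ∀ i, i ≤ j + i + 4) tendsto_id)
    have h3 := le_of_tendsto_of_tendsto' h1 h2 (fun i => hZb j i b)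
    rwa [zero_mul, add_zero] at h3
  refine ⟨a, ⟨Q p, (hQ _ hp).1, fun r hr => ?_⟩, ?_⟩
  · obtain ⟨n, hn⟩ := hvs r hr
    exact ⟨(S n).2 + 1, fun b => (hn _).trans ((hPle2 n _).trans (hlimb n b))⟩
  · have h1 : Tendsto (fun n => p (1 - Z n)) atTop (𝓝 (p (1 - a))) :=
      (hp.1.tendsto _).comp (ha.const_sub 1)
    have h2 : ∀ n, p (1 - Z n) ≤ 7 / 16 - 3 / 8 * (1 / 2) ^ n := by
      intro n
      induction n with
      | zero =>
        refine (hz0p (κ 0)).trans ?_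
        norm_num
      | succ n ih =>
        have e1 : 1 - Z (n + 1) = (1 - Z n) - (Z (n + 1) - Z n) := by abel
        rw [e1]
        have h3 := map_sub_le_add p (1 - Z n) (Z (n + 1) - Z n)
        have h4 := (hPmono 0 (n + 1) (by omega) (Z (n + 1) - Z n)).trans (hZe n)
        rw [hP0] at h4
        have h5 : (1 / 2 : ℝ) ^ (n + 4) = (1 / 2) ^ n * (1 / 16) := by
          rw [pow_add]
          norm_num
        rw [h5] at h4
        rw [pow_succ]
        linarith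
    have h3 : p (1 - a) ≤ 7 / 16 := by
      refine le_of_tendsto h1 (Eventually.of_forall fun n => (h2 n).trans ?_)
      have : (0 : ℝ) < (1 / 2) ^ n := by positivity
      linarith
    linarith

end Pool.Agent.Helper2.SM
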